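import Pool.Agent.N963.GN.Stm3
import Pool.Agent.N768.GN.A

set_option autoImplicit false

/-!
# The operators `ψ(D)`, `ψ` in the Laguerre-Polya class, on functions of order less than two
-/

namespace Pool.Agent.N525.GN

open Complex Filter Topology MeasureTheory Polynomial
open scoped ComplexConjugate
open Pool.Agent.N963.GN Pool.Agent.N768.GN

namespace C5

/-! ### Bounds -/

/-- the bound for the derivatives of `G` -/
noncomputable def gb (A K σ : ℝ) (n : ℕ) : ℝ :=
  A * n.factorial * Real.exp K ^ n / ((n : ℝ) ^ σ) ^ n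

/-- the bound for the Taylor coefficients -/
noncomputable def qb (M : ℝ) (n : ℕ) : ℝ := M * Real.exp M ^ n / (Real.sqrt n) ^ n

lemma gb_nonneg {A K σ : ℝ} (hA : 0 ≤ A) (n : ℕ) : 0 ≤ gb A K σ n := by
  unfold gb; positivity

lemma qb_nonneg {M : ℝ} (hM : 0 ≤ M) (n : ℕ) : 0 ≤ qb M n := by
  unfold qb; positivity

lemma smb {A K σ M : ℝ} (hA : 0 ≤ A) (hM : 0 ≤ M) (hσ : 1 / 2 < σ) :
    Summable (fun n => qb M n * gb A K σ n) := by
  have h1 : Tendsto (fun n : ℕ => Real.exp (K + M) * (n : ℝ) ^ (-(σ - 1 / 2))) atTop (𝓝 0) := by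
    have h := ((tendsto_rpow_neg_atTop (show 0 < σ - 1 / 2 by linarith)).comp
      tendsto_natCast_atTop_atTop).const_mul (Real.exp (K + M))
    rw [mul_zero] at h
    exact h
  have h2 : ∀ᶠ n : ℕ in atTop, Real.exp (K + M) * (n : ℝ) ^ (-(σ - 1 / 2)) ≤ 1 / 2 :=
    (h1.eventually (gt_mem_nhds (show (0 : ℝ) < 1 / 2 by norm_num))).mono fun _ h => le_of_lt h
  refine Summable.of_norm_bounded_eventually_nat (g := fun n => A * M * (1 / 2 : ℝ) ^ n)
    ((summable_geometric_of_lt_one (by norm_num) (by norm_num)).mul_left _) ?_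
  filter_upwards [h2, eventually_ge_atTop 1] with n hn hn1
  have hn0 : (0 : ℝ) < n := by exact_mod_cast hn1
  rw [Real.norm_of_nonneg (mul_nonneg (qb_nonneg hM n) (gb_nonneg hA n))]
  have hfac : (n.factorial : ℝ) ≤ (n : ℝ) ^ n := by exact_mod_cast Nat.factorial_le_pow n
  have e1 : Real.exp (K + M) * (n : ℝ) ^ (-(σ - 1 / 2)) =
      Real.exp M * Real.exp K * n / ((n : ℝ) ^ σ * Real.sqrt n) := by
    have h3 : (n : ℝ) ^ (-(σ - 1 / 2)) * ((n : ℝ) ^ σ * Real.sqrt n) = n := by
      rw [Real.sqrt_eq_rpow, ← Real.rpow_add hn0, ← Real.rpow_add hn0]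
      ring_nf
      exact Real.rpow_one _
    rw [eq_div_iff (by positivity), mul_assoc, h3, Real.exp_add]
    ring
  rw [e1] at hn
  calc qb M n * gb A K σ n = A * M * (n.factorial * (Real.exp M * Real.exp K /
        ((n : ℝ) ^ σ * Real.sqrt n)) ^ n) := by
        unfold qb gb
        rw [div_pow, mul_pow, mul_pow]
        field_simp
    _ ≤ A * M * ((n : ℝ) ^ n * (Real.exp M * Real.exp K / ((n : ℝ) ^ σ * Real.sqrt n)) ^ n) := by
        gcongr
    _ = A * M * (Real.exp M * Real.exp K * n / ((n : ℝ) ^ σ * Real.sqrt n)) ^ n := by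
        rw [← mul_pow]
        congr 2
        ring
    _ ≤ A * M * (1 / 2) ^ n := by gcongr

lemma gbd {G : ℂ → ℂ} (hG : Differentiable ℂ G) (hgr : Gr2 G) : ∃ σ : ℝ, 1 / 2 < σ ∧
    ∀ B : ℝ, 0 ≤ B → ∃ A K : ℝ, 0 ≤ A ∧ ∀ (n : ℕ) (z : ℂ), ‖z‖ ≤ B →
      ‖iteratedDeriv n G z‖ ≤ gb A K σ n := by
  obtain ⟨C, ρ, hC, hρ0, hρ2, hb⟩ := hgr
  set ρ' : ℝ := max ρ 1 with hρ'
  have hρ1 : 1 ≤ ρ' := le_max_right _ _
  have hρ'2 : ρ' < 2 := max_lt hρ2 (by norm_num)
  have hρρ : ρ ≤ ρ' := le_max_left _ _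
  refine ⟨1 / ρ', by rw [lt_div_iff₀ (by linarith)]; linarith, fun B hB => ?_⟩
  refine ⟨Real.exp (C * (1 + B) ^ ρ), C * (2 + B) ^ ρ', (Real.exp_pos _).le, fun n z hz => ?_⟩
  have hA1 : 1 ≤ Real.exp (C * (1 + B) ^ ρ) := Real.one_le_exp (by positivity)
  rcases Nat.eq_zero_or_pos n with rfl | hn
  · rw [iteratedDeriv_zero]
    refine (hb z).trans ?_
    unfold gb
    simp only [Nat.factorial_zero, Nat.cast_one, mul_one, pow_zero, div_one]
    gcongr
  · have hn0 : (0 : ℝ) < n := by exact_mod_cast hn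
    have hn1 : (1 : ℝ) ≤ n := by exact_mod_cast hn
    have hR : 0 < (n : ℝ) ^ (1 / ρ') := by positivity
    have hR1 : 1 ≤ (n : ℝ) ^ (1 / ρ') := Real.one_le_rpow hn1 (by positivity)
    have hs : ∀ w ∈ Metric.sphere z ((n : ℝ) ^ (1 / ρ')), ‖G w‖ ≤
        Real.exp (C * (2 + B) ^ ρ') ^ n := by
      intro w hw
      rw [mem_sphere_iff_norm] at hw
      have h1 : 1 + ‖w‖ ≤ (2 + B) * (n : ℝ) ^ (1 / ρ') := by
        have : ‖w‖ ≤ ‖w - z‖ + ‖z‖ := by
          simpa using norm_add_le (w - z) z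
        nlinarith
      refine (hb w).trans ?_
      rw [← Real.exp_nat_mul]
      refine Real.exp_le_exp.2 ?_
      have h2 : (1 + ‖w‖) ^ ρ ≤ (2 + B) ^ ρ' * n := by
        calc (1 + ‖w‖) ^ ρ ≤ (1 + ‖w‖) ^ ρ' :=
              Real.rpow_le_rpow_of_exponent_le (by linarith [norm_nonneg w]) hρρ
          _ ≤ ((2 + B) * (n : ℝ) ^ (1 / ρ')) ^ ρ' :=
              Real.rpow_le_rpow (by positivity) h1 (by linarith)
          _ = (2 + B) ^ ρ' * n := by
              rw [Real.mul_rpow (by positivity) (by positivity), ← Real.rpow_mul hn0.le,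
                one_div, inv_mul_cancel₀ (by linarith), Real.rpow_one]
      calc C * (1 + ‖w‖) ^ ρ ≤ C * ((2 + B) ^ ρ' * n) := by gcongr
        _ = n * (C * (2 + B) ^ ρ') := by ring
    have h := Complex.norm_iteratedDeriv_le_of_forall_mem_sphere_norm_le n hR
      (hG.diffContOnCl (s := Metric.ball z _)) hs
    refine h.trans ?_
    unfold gb
    have : (n.factorial : ℝ) * Real.exp (C * (2 + B) ^ ρ') ^ n ≤
        Real.exp (C * (1 + B) ^ ρ) * n.factorial * Real.exp (C * (2 + B) ^ ρ') ^ n := by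
      have h0 : (0 : ℝ) ≤ (n.factorial : ℝ) * Real.exp (C * (2 + B) ^ ρ') ^ n := by positivity
      nlinarith
    gcongr

lemma qbd {f : ℂ → ℂ} (hf : Differentiable ℂ f) {M : ℝ} (_hM : 0 ≤ M)
    (hb : ∀ s, ‖f s‖ ≤ M * Real.exp (M * ‖s‖ ^ 2)) (n : ℕ) :
    ‖iteratedDeriv n f 0 / (n.factorial : ℂ)‖ ≤ qb M n := by
  rcases Nat.eq_zero_or_pos n with rfl | hn
  · have := hb 0
    simp only [norm_zero] at this
    simpa [qb, iteratedDeriv_zero] using this
  · have hn0 : (0 : ℝ) < n := by exact_mod_cast hn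
    have hR : 0 < Real.sqrt n := Real.sqrt_pos.2 hn0
    have hs : ∀ w ∈ Metric.sphere (0 : ℂ) (Real.sqrt n), ‖f w‖ ≤ M * Real.exp M ^ n := by
      intro w hw
      rw [mem_sphere_iff_norm, sub_zero] at hw
      refine (hb w).trans (le_of_eq ?_)
      rw [hw, Real.sq_sqrt hn0.le, ← Real.exp_nat_mul, mul_comm M (n : ℝ)]
    have h := Complex.norm_iteratedDeriv_le_of_forall_mem_sphere_norm_le n hR
      (hf.diffContOnCl (s := Metric.ball 0 _)) hs
    rw [norm_div, Complex.norm_natCast, div_le_iff₀ (by positivity)]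
    refine h.trans (le_of_eq ?_)
    unfold qb
    ring

/-! ### Polynomials -/

lemma iter_aeval (Q : ℝ[X]) (n : ℕ) :
    iteratedDeriv n (fun w : ℂ => aeval w Q) = fun w => aeval w (derivative^[n] Q) := by
  induction n with
  | zero => simp
  | succ n ih =>
    rw [iteratedDeriv_succ, ih]
    funext w
    rw [Polynomial.deriv_aeval, Function.iterate_succ_apply']

lemma coeff_aeval (Q : ℝ[X]) (n : ℕ) :
    iteratedDeriv n (fun w : ℂ => aeval w Q) 0 / (n.factorial : ℂ) = (Q.coeff n : ℂ) := by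
  rw [iter_aeval]
  have h1 : aeval (0 : ℂ) (derivative^[n] Q) = (((derivative^[n] Q).coeff 0 : ℝ) : ℂ) := by
    rw [← coeff_zero_eq_aeval_zero', Complex.coe_algebraMap]
  have h0 : (n.factorial : ℂ) ≠ 0 := by exact_mod_cast n.factorial_ne_zero
  beta_reduce
  rw [h1, coeff_iterate_derivative, zero_add, Nat.descFactorial_self, nsmul_eq_mul]
  push_cast
  field_simp

/-- the differential operator of a polynomial -/
noncomputable def op (Q : ℝ[X]) (G : ℂ → ℂ) (z : ℂ) : ℂ :=
  Q.sum fun n a => (a : ℂ) * iteratedDeriv n G z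

lemma op_range (Q : ℝ[X]) (G : ℂ → ℂ) (z : ℂ) {N : ℕ} (h : Q.natDegree < N) :
    op Q G z = ∑ n ∈ Finset.range N, (Q.coeff n : ℂ) * iteratedDeriv n G z :=
  sum_over_range' _ (fun n => by simp) N h

lemma tsum_op (Q : ℝ[X]) (G : ℂ → ℂ) (z : ℂ) :
    HasSum (trm (fun w : ℂ => aeval w Q) G z) (op Q G z) := by
  rw [op_range Q G z (Nat.lt_succ_self _)]
  have h : ∀ n, trm (fun w : ℂ => aeval w Q) G z n = (Q.coeff n : ℂ) * iteratedDeriv n G z :=
    fun n => by unfold trm; rw [coeff_aeval]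
  simp only [← h]
  refine hasSum_sum_of_ne_finset_zero fun n hn => ?_
  rw [h, coeff_eq_zero_of_natDegree_lt (by simpa using hn)]
  simp

lemma smooth {G : ℂ → ℂ} (hG : Differentiable ℂ G) (n : ℕ) :
    Differentiable ℂ (iteratedDeriv n G) :=
  (hG.contDiff (n := ⊤)).differentiable_iteratedDeriv n (by simp)

lemma op_diff (Q : ℝ[X]) {G : ℂ → ℂ} (hG : Differentiable ℂ G) : Differentiable ℂ (op Q G) := by
  have : op Q G = fun z => ∑ n ∈ Finset.range (Q.natDegree + 1), (Q.coeff n : ℂ) *
      iteratedDeriv n G z := funext fun z => op_range Q G z (Nat.lt_succ_self _)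
  rw [this]
  exact Differentiable.fun_sum fun n _ => (smooth hG n).const_mul _

lemma op_mul (Q : ℝ[X]) (x : ℝ) {G : ℂ → ℂ} (hG : Differentiable ℂ G) (z : ℂ) :
    op ((X - C x) * Q) G z = deriv (op Q G) z - x * op Q G z := by
  have hdeg : ((X - C x) * Q).natDegree < Q.natDegree + 2 := by
    refine lt_of_le_of_lt natDegree_mul_le ?_
    rw [natDegree_X_sub_C]; omega
  rw [op_range _ G z hdeg, op_range Q G z (show Q.natDegree < Q.natDegree + 2 by omega)]
  have h1 : deriv (op Q G) z = ∑ n ∈ Finset.range (Q.natDegree + 1), (Q.coeff n : ℂ) *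
      iteratedDeriv (n + 1) G z := by
    have : op Q G = fun z => ∑ n ∈ Finset.range (Q.natDegree + 1), (Q.coeff n : ℂ) *
        iteratedDeriv n G z := funext fun z => op_range Q G z (Nat.lt_succ_self _)
    rw [this, deriv_fun_sum fun n _ => ((smooth hG n).const_mul _).differentiableAt]
    refine Finset.sum_congr rfl fun n _ => ?_
    rw [deriv_const_mul _ (smooth hG n).differentiableAt, iteratedDeriv_succ]
  have h2 : ∑ n ∈ Finset.range (Q.natDegree + 2), (((X * Q).coeff n : ℝ) : ℂ) *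
      iteratedDeriv n G z = deriv (op Q G) z := by
    rw [h1, Finset.sum_range_succ']
    simp only [coeff_X_mul, coeff_X_mul_zero]
    simp
  rw [← h2, Finset.mul_sum, ← Finset.sum_sub_distrib]
  refine Finset.sum_congr rfl fun n _ => ?_
  rw [sub_mul, coeff_sub, coeff_C_mul]
  push_cast
  ring

lemma app_smul {m : ℕ} {F : ℂ → ℂ} (h : App m F) {c : ℝ} (hc : c ≠ 0) :
    App m (fun z => (c : ℂ) * F z) := by
  intro R ε hε
  obtain ⟨P, hP, hd, hb⟩ := h R (ε / |c|) (by positivity)
  refine ⟨C c * P, mul_ne_zero (C_ne_zero.2 hc) hP, ?_, fun z hz => ?_⟩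
  · rw [natDegree_C_mul hc, roots_C_mul _ hc]
    exact hd
  · have h1 := hb z hz
    rw [map_mul, aeval_C]
    have : (c : ℂ) * F z - (algebraMap ℝ ℂ) c * aeval z P = (c : ℂ) * (F z - aeval z P) := by
      rw [Complex.coe_algebraMap]; ring
    rw [this, norm_mul, Complex.norm_real, Real.norm_eq_abs]
    calc |c| * ‖F z - aeval z P‖ ≤ |c| * (ε / |c|) := by gcongr
      _ = ε := by field_simp

lemma app_sub {m : ℕ} {F : ℂ → ℂ} (hF : Differentiable ℂ F) (h : App m F) (x : ℝ) :
    App m (fun z => deriv F z - x * F z) := by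
  have key : ∀ x : ℝ, x ≠ 0 → App m (fun z => deriv F z - x * F z) := by
    intro x hx
    have h1 := app_smul (a3 m F (1 / x) hF h) (neg_ne_zero.2 hx)
    refine (congrArg (App m) (funext fun z => ?_)).mp h1
    have : (x : ℂ) ≠ 0 := by exact_mod_cast hx
    push_cast
    field_simp
    ring
  by_cases hx : x = 0
  · subst hx
    refine a1 m _ fun R ε hε => ?_
    obtain ⟨B, hB⟩ := (isCompact_closedBall (0 : ℂ) R).exists_bound_of_continuousOn
      hF.continuous.continuousOn
    have hB1 : 0 < |B| + 1 := by positivity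
    refine ⟨_, key (ε / (|B| + 1)) (by positivity), fun z hz => ?_⟩
    have h2 := hB z (by simpa using hz)
    have : deriv F z - ((0 : ℝ) : ℂ) * F z - (deriv F z - ((ε / (|B| + 1) : ℝ) : ℂ) * F z) =
        ((ε / (|B| + 1) : ℝ) : ℂ) * F z := by
      push_cast; ring
    rw [this, norm_mul, Complex.norm_real, Real.norm_of_nonneg (by positivity)]
    calc ε / (|B| + 1) * ‖F z‖ ≤ ε / (|B| + 1) * (|B| + 1) := by
          gcongr
          linarith [le_abs_self B]
      _ = ε := by field_simp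
  · exact key x hx

lemma app_op {m : ℕ} {G : ℂ → ℂ} (hG : Differentiable ℂ G) (h : App m G) :
    ∀ (d : ℕ) (Q : ℝ[X]), Q.natDegree = d → (∀ w : ℂ, aeval w Q = 0 → w.im = 0) →
      App m (op Q G) := by
  intro d
  induction d with
  | zero =>
    intro Q hd hr
    obtain ⟨c, rfl⟩ : ∃ c, Q = C c := ⟨_, eq_C_of_natDegree_eq_zero hd⟩
    have hc : c ≠ 0 := by
      rintro rfl
      have := hr I (by simp)
      simp at this
    have : op (C c) G = fun z => (c : ℂ) * G z := by
      funext z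
      rw [op_range (C c) G z (N := 1) (by simp)]
      simp
    rw [this]
    exact app_smul h hc
  | succ d ih =>
    intro Q hd hr
    have hQ0 : Q ≠ 0 := by
      rintro rfl
      simp at hd
    obtain ⟨w, hw⟩ := IsAlgClosed.exists_aeval_eq_zero ℂ Q (by
      intro h0
      rw [degree_eq_natDegree hQ0, hd] at h0
      norm_cast at h0)
    have him := hr w hw
    have hwre : w = (w.re : ℂ) := Complex.ext rfl (by simpa using him)
    have hroot : Q.IsRoot w.re := by
      rw [hwre] at hw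
      have h1 : aeval ((w.re : ℝ) : ℂ) Q = ((Q.eval w.re : ℝ) : ℂ) := by
        have := aeval_algebraMap_apply ℂ w.re Q
        simpa using this
      rw [h1] at hw
      exact_mod_cast hw
    obtain ⟨Q1, hQ1⟩ := dvd_iff_isRoot.2 hroot
    have hQ10 : Q1 ≠ 0 := by
      rintro rfl
      rw [mul_zero] at hQ1
      exact hQ0 hQ1
    have hd1 : Q1.natDegree = d := by
      rw [hQ1, natDegree_mul (X_sub_C_ne_zero _) hQ10, natDegree_X_sub_C] at hd
      omega
    have hr1 : ∀ u : ℂ, aeval u Q1 = 0 → u.im = 0 := by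
      intro u hu
      refine hr u ?_
      rw [hQ1, map_mul, hu, mul_zero]
    have h1 := ih Q1 hd1 hr1
    have h2 := app_sub (op_diff Q1 hG) h1 w.re
    refine (congrArg (App m) (funext fun z => ?_)).mp h2
    rw [hQ1, op_mul Q1 w.re hG z]

/-! ### Symmetry -/

lemma sym_iter {f : ℂ → ℂ} (hf : Differentiable ℂ f) (h : Sym f) (n : ℕ) :
    Sym (iteratedDeriv n f) := by
  induction n with
  | zero => simpa [iteratedDeriv_zero] using h
  | succ n ih =>
    intro z
    rw [iteratedDeriv_succ]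
    have h1 : HasDerivAt (iteratedDeriv n f) (deriv (iteratedDeriv n f) z) z :=
      ((smooth hf n) z).hasDerivAt
    have h2 := h1.conj_conj
    have h3 : (conj ∘ iteratedDeriv n f ∘ conj) = iteratedDeriv n f := by
      funext w
      simp only [Function.comp_apply]
      rw [ih w, Complex.conj_conj]
    rw [h3] at h2
    exact h2.deriv

lemma sym_aeval (Q : ℝ[X]) : Sym (fun w : ℂ => aeval w Q) := fun z => by
  beta_reduce
  rw [Polynomial.aeval_conj]

end C5

open C5

theorem t_C5 : S_C5 := by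
  intro hC2 ψ hψ G hG hgr
  obtain ⟨hne, Q, hQr, hQl⟩ := hψ
  obtain ⟨M, hM, N0, hN0⟩ := hC2 ψ Q hne hQr hQl
  obtain ⟨σ, hσ, hgb⟩ := gbd hG hgr
  have hQd : ∀ N, Differentiable ℂ (fun w : ℂ => aeval w (Q N)) := fun N =>
    Polynomial.differentiable_aeval (Q N)
  have hψd : Differentiable ℂ ψ := by
    rw [← differentiableOn_univ]
    exact (tendstoLocallyUniformlyOn_univ.2 hQl).differentiableOn
      (Eventually.of_forall fun N => (hQd N).differentiableOn) isOpen_univ
  have hpt : ∀ s, Tendsto (fun N => aeval s (Q N)) atTop (𝓝 (ψ s)) := fun s =>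
    (tendstoLocallyUniformlyOn_univ.2 hQl).tendsto_at (Set.mem_univ s)
  have hψb : ∀ s, ‖ψ s‖ ≤ M * Real.exp (M * ‖s‖ ^ 2) := fun s =>
    le_of_tendsto (hpt s).norm (eventually_atTop.2 ⟨N0, fun N hN => hN0 N hN s⟩)
  have hψs : Sym ψ := by
    intro s
    refine tendsto_nhds_unique (hpt (conj s)) ?_
    have h1 := (Complex.continuous_conj.tendsto (ψ s)).comp (hpt s)
    refine h1.congr fun N => ?_
    exact (sym_aeval (Q N) s).symm
  set co : ℕ → ℂ := fun n => iteratedDeriv n ψ 0 / (n.factorial : ℂ) with hco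
  have hcob : ∀ n, ‖co n‖ ≤ qb M n := qbd hψd hM hψb
  have htrm : ∀ z n, trm ψ G z n = co n * iteratedDeriv n G z := fun z n => rfl
  -- coefficients converge
  have hcoef : ∀ n, Tendsto (fun N => ‖((Q N).coeff n : ℂ) - co n‖) atTop (𝓝 0) := by
    intro n
    rw [Metric.tendsto_atTop]
    intro ε hε
    have h1 := (tendstoLocallyUniformly_iff_forall_isCompact.1 hQl) (Metric.closedBall 0 1)
      (isCompact_closedBall 0 1)
    rw [Metric.tendstoUniformlyOn_iff] at h1
    obtain ⟨N1, hN1⟩ := eventually_atTop.1 (h1 (ε / 2) (by positivity))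
    refine ⟨N1, fun N hN => ?_⟩
    have h2 := Complex.norm_iteratedDeriv_le_of_forall_mem_sphere_norm_le n one_pos
      (((hQd N).sub hψd).diffContOnCl (s := Metric.ball 0 1)) (C := ε / 2) (fun w hw => by
        have h3 := hN1 N hN w (Metric.sphere_subset_closedBall hw)
        rw [dist_comm, dist_eq_norm] at h3
        exact h3.le)
    have h4 : ((Q N).coeff n : ℂ) - co n =
        iteratedDeriv n ((fun w : ℂ => aeval w (Q N)) - ψ) 0 / (n.factorial : ℂ) := by
      rw [iteratedDeriv_sub ((hQd N).contDiff.contDiffAt) (hψd.contDiff.contDiffAt), sub_div,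
        coeff_aeval]
    rw [h4, dist_zero_right, Real.norm_of_nonneg (norm_nonneg _), norm_div, Complex.norm_natCast,
      div_lt_iff₀ (by positivity)]
    rw [one_pow, div_one] at h2
    have h5 : (0 : ℝ) < n.factorial := by positivity
    nlinarith
  have hbd : ∀ {B A K : ℝ}, (∀ (n : ℕ) (z : ℂ), ‖z‖ ≤ B → ‖iteratedDeriv n G z‖ ≤ gb A K σ n) →
      ∀ (n : ℕ) (z : ℂ), ‖z‖ ≤ B → ‖trm ψ G z n‖ ≤ qb M n * gb A K σ n := by
    intro B A K h n z hz
    rw [htrm, norm_mul]
    exact mul_le_mul (hcob n) (h n z hz) (norm_nonneg _) (qb_nonneg hM n)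
  have hsum : ∀ z, Summable (trm ψ G z) := by
    intro z
    obtain ⟨A, K, hA, h⟩ := hgb ‖z‖ (norm_nonneg z)
    exact Summable.of_norm_bounded (smb hA hM hσ) fun n => hbd h n z le_rfl
  have htd : ∀ n, Differentiable ℂ (fun z => trm ψ G z n) := fun n => (smooth hG n).const_mul _
  have hdiff : Differentiable ℂ (fun z => ∑' n, trm ψ G z n) := by
    intro z
    obtain ⟨A, K, hA, h⟩ := hgb (‖z‖ + 1) (by positivity)
    have h1 := Complex.differentiableOn_tsum_of_summable_norm (smb hA hM hσ)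
      (fun n => (htd n).differentiableOn) (Metric.isOpen_ball (x := (0 : ℂ)) (ε := ‖z‖ + 1))
      (fun n w hw => hbd h n w (by
        rw [mem_ball_zero_iff] at hw
        exact hw.le))
    exact h1.differentiableAt (Metric.isOpen_ball.mem_nhds (by
      rw [mem_ball_zero_iff]; linarith))
  refine ⟨hsum, hdiff, ?_, ?_, ?_⟩
  · intro hGs z
    beta_reduce
    have h1 : ∀ n, trm ψ G (conj z) n = conj (trm ψ G z n) := by
      intro n
      rw [htrm, htrm, map_mul, sym_iter hG hGs n z]
      congr 1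
      have h2 := sym_iter hψd hψs n 0
      rw [map_zero] at h2
      rw [hco]
      beta_reduce
      rw [map_div₀, ← h2, map_natCast]
    have h2 := (hsum z).hasSum.mapL (Complex.conjCLE : ℂ →L[ℝ] ℂ)
    have h3 : HasSum (trm ψ G (conj z)) (conj (∑' n, trm ψ G z n)) := by
      refine h2.congr_fun fun n => ?_
      exact h1 n
    exact h3.tsum_eq
  · intro m hm
    refine a1 m _ fun R ε hε => ?_
    obtain ⟨A, K, hA, h⟩ := hgb (max R 0) (le_max_right _ _)
    have hT : Tendsto (fun N => ∑' n, ‖((Q N).coeff n : ℂ) - co n‖ * gb A K σ n) atTop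
        (𝓝 (∑' _n : ℕ, (0 : ℝ))) := by
      refine tendsto_tsum_of_dominated_convergence (bound := fun n => 2 * (qb M n * gb A K σ n))
        ((smb hA hM hσ).mul_left 2) (fun n => ?_) ?_
      · have := (hcoef n).mul_const (gb A K σ n)
        rwa [zero_mul] at this
      · filter_upwards [eventually_ge_atTop N0] with N hN n
        have h1 : ‖((Q N).coeff n : ℂ)‖ ≤ qb M n := by
          rw [← coeff_aeval]
          exact qbd (hQd N) hM (hN0 N hN) n
        rw [Real.norm_of_nonneg (mul_nonneg (norm_nonneg _) (gb_nonneg hA n))]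
        have h2 := norm_sub_le ((Q N).coeff n : ℂ) (co n)
        have h3 := hcob n
        have h4 := gb_nonneg (K := K) (σ := σ) hA n
        nlinarith
    rw [tsum_zero] at hT
    obtain ⟨N, hN, hNN⟩ := ((hT.eventually (gt_mem_nhds hε)).and (eventually_ge_atTop N0)).exists
    refine ⟨op (Q N) G, app_op hG hm _ (Q N) rfl (hQr N), fun z hz => ?_⟩
    have hz' : ‖z‖ ≤ max R 0 := hz.trans (le_max_left _ _)
    have h1 := ((tsum_op (Q N) G z).sub (hsum z).hasSum)
    have hs2 : Summable fun n => ‖((Q N).coeff n : ℂ) - co n‖ * gb A K σ n := by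
      refine Summable.of_nonneg_of_le (fun n => mul_nonneg (norm_nonneg _) (gb_nonneg hA n))
        (fun n => ?_) ((smb (K := K) hA hM hσ).mul_left 2)
      have h1 : ‖((Q N).coeff n : ℂ)‖ ≤ qb M n := by
        rw [← coeff_aeval]
        exact qbd (hQd N) hM (hN0 N hNN) n
      have h2 := norm_sub_le ((Q N).coeff n : ℂ) (co n)
      have h3 := hcob n
      have h4 := gb_nonneg (K := K) (σ := σ) hA n
      nlinarith
    rw [norm_sub_rev, ← h1.tsum_eq]
    refine (tsum_of_norm_bounded hs2.hasSum fun n => ?_).trans hN.le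
    have h5 : trm (fun w : ℂ => aeval w (Q N)) G z n = ((Q N).coeff n : ℂ) * iteratedDeriv n G z := by
      unfold trm; rw [coeff_aeval]
    rw [h5, htrm, ← sub_mul, norm_mul]
    exact mul_le_mul_of_nonneg_left (h n z hz') (norm_nonneg _)
  · intro a0 z
    -- the coefficients of the product
    have hit : ∀ n : ℕ, iteratedDeriv (n + 1) (fun s => (s - a0) * ψ s) =
        fun s => (s - a0) * iteratedDeriv (n + 1) ψ s + (n + 1) * iteratedDeriv n ψ s := by
      intro n
      induction n with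
      | zero =>
        funext s
        rw [zero_add, iteratedDeriv_one, iteratedDeriv_one, iteratedDeriv_zero]
        have h1 : HasDerivAt (fun s => (s - a0) * ψ s) (1 * ψ s + (s - a0) * deriv ψ s) s :=
          ((hasDerivAt_id s).sub_const a0).mul (hψd s).hasDerivAt
        rw [h1.deriv]
        push_cast
        ring
      | succ n ih =>
        rw [iteratedDeriv_succ, ih]
        funext s
        have h1 : HasDerivAt (fun s => (s - a0) * iteratedDeriv (n + 1) ψ s)
            (1 * iteratedDeriv (n + 1) ψ s + (s - a0) * deriv (iteratedDeriv (n + 1) ψ) s) s :=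
          ((hasDerivAt_id s).sub_const a0).mul ((smooth hψd (n + 1)) s).hasDerivAt
        have h2 : HasDerivAt (fun s => ((n : ℂ) + 1) * iteratedDeriv n ψ s)
            (((n : ℂ) + 1) * deriv (iteratedDeriv n ψ) s) s :=
          ((smooth hψd n) s).hasDerivAt.const_mul _
        have h3 := (h1.add h2).deriv
        have h4 : deriv (fun s => (s - a0) * iteratedDeriv (n + 1) ψ s +
            ((n : ℂ) + 1) * iteratedDeriv n ψ s) s = 1 * iteratedDeriv (n + 1) ψ s +
              (s - a0) * deriv (iteratedDeriv (n + 1) ψ) s +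
                ((n : ℂ) + 1) * deriv (iteratedDeriv n ψ) s := h3
        rw [h4, ← iteratedDeriv_succ, ← iteratedDeriv_succ]
        push_cast
        ring
    obtain ⟨A, K, hA, h⟩ := hgb (‖z‖ + 1) (by positivity)
    have hzU : z ∈ Metric.ball (0 : ℂ) (‖z‖ + 1) := by
      rw [mem_ball_zero_iff]; linarith
    have h1 := Complex.hasSum_deriv_of_summable_norm (smb hA hM hσ)
      (fun n => (htd n).differentiableOn) (Metric.isOpen_ball (x := (0 : ℂ)) (ε := ‖z‖ + 1))
      (fun n w hw => hbd h n w (by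
        rw [mem_ball_zero_iff] at hw
        exact hw.le)) hzU
    have h2 : ∀ n, deriv (fun w => trm ψ G w n) z = co n * iteratedDeriv (n + 1) G z := by
      intro n
      have : (fun w => trm ψ G w n) = fun w => co n * iteratedDeriv n G w := rfl
      rw [this, deriv_const_mul _ (smooth hG n).differentiableAt, iteratedDeriv_succ]
    simp only [h2] at h1
    set S : ℕ → ℂ := fun n => trm (fun s => (s - a0) * ψ s) G z n + a0 * trm ψ G z n with hS
    have hS0 : S 0 = 0 := by
      simp only [hS, trm, iteratedDeriv_zero]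
      ring
    have hS1 : ∀ n, S (n + 1) = co n * iteratedDeriv (n + 1) G z := by
      intro n
      simp only [hS, trm, hco]
      rw [hit n, Nat.factorial_succ]
      have h0 : (n.factorial : ℂ) ≠ 0 := by exact_mod_cast n.factorial_ne_zero
      have h0' : ((n : ℂ) + 1) ≠ 0 := by exact_mod_cast n.succ_ne_zero
      push_cast
      field_simp
      ring
    have h3 : HasSum S (deriv (fun w => ∑' n, trm ψ G w n) z) := by
      have h4 := (hasSum_nat_add_iff (f := S) 1).1 (h1.congr_fun hS1)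
      simpa [hS0] using h4
    have h5 := h3.sub ((hsum z).hasSum.mul_left a0)
    refine h5.congr_fun fun n => ?_
    simp only [hS]
    ring

end Pool.Agent.N525.GN
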